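import Pool.Agent.Q81.IM.Stm

/-!
# Project IM, job MN: the inequality for the integral means of the derivatives
-/

set_option autoImplicit false

open Complex Metric Set MeasureTheory Filter Topology

namespace Pool.Agent.Q223.IM

open Pool.Agent.Q81.IM

theorem norm_cp (r t : ℝ) (hr : 0 ≤ r) : ‖cp r t‖ = r := by
  unfold cp
  rw [norm_mul, Complex.norm_exp_ofReal_mul_I, mul_one, Complex.norm_real, Real.norm_of_nonneg hr]

theorem continuous_cp : Continuous (fun q : ℝ × ℝ => cp q.1 q.2) := by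
  unfold cp
  fun_prop

/-- clamping to `[0, 3/4]` -/
noncomputable def cl (s : ℝ) : ℝ := max 0 (min s (3 / 4))

theorem cl_nonneg (s : ℝ) : 0 ≤ cl s := le_max_left _ _

theorem cl_lt (s : ℝ) : cl s < 1 := by
  unfold cl
  apply max_lt one_pos
  exact lt_of_le_of_lt (min_le_right _ _) (by norm_num)

theorem cl_eq (s : ℝ) (h0 : 0 ≤ s) (h1 : s ≤ 1 / 2) : cl s = s := by
  unfold cl
  rw [min_eq_left (by linarith), max_eq_right h0]

theorem continuous_cl : Continuous cl := by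
  unfold cl
  fun_prop

/-- the integral means depend continuously on the radius -/
theorem cont_mean (K : ℂ → ℂ) (hK : ContinuousOn K (ball 0 1)) (p : ℝ) (hp : 0 < p) :
    Continuous (fun s : ℝ => ∫ t in (0 : ℝ)..(2 * Real.pi), ‖K (cp (cl s) t)‖ ^ p) := by
  apply intervalIntegral.continuous_parametric_intervalIntegral_of_continuous'
  have h1 : Continuous (fun q : ℝ × ℝ => cp (cl q.1) q.2) := by
    have h2 : Continuous (fun q : ℝ × ℝ => (cl q.1, q.2)) :=
      (continuous_cl.comp continuous_fst).prodMk continuous_snd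
    exact continuous_cp.comp h2
  have h3 : Continuous (fun q : ℝ × ℝ => K (cp (cl q.1) q.2)) := by
    apply hK.comp_continuous h1
    intro q
    rw [mem_ball_zero_iff, norm_cp _ _ (cl_nonneg _)]
    exact cl_lt _
  have h4 : Continuous (fun q : ℝ × ℝ => ‖K (cp (cl q.1) q.2)‖ ^ p) :=
    h3.norm.rpow_const (fun _ => Or.inr hp.le)
  exact h4

/-- continuity on one circle -/
theorem cont_circle (K : ℂ → ℂ) (R : ℝ) (hK : ContinuousOn K (ball 0 R)) (s : ℝ) (hs : 0 ≤ s)
    (hsR : s < R) : Continuous (fun t : ℝ => K (cp s t)) := by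
  have h1 : Continuous (fun t : ℝ => cp s t) :=
    continuous_cp.comp (continuous_const.prodMk continuous_id)
  apply hK.comp_continuous h1
  intro t
  rw [mem_ball_zero_iff, norm_cp _ _ hs]
  exact hsR

theorem deriv_eq (f φ : ℂ → ℂ) (hf : DifferentiableOn ℂ f (ball 0 1)) (hφ : Sw φ) (z : ℂ)
    (hz : z ∈ ball (0 : ℂ) 1) :
    deriv (fun z => f (φ z)) z = deriv f (φ z) * deriv φ z := by
  have h1 : DifferentiableAt ℂ f (φ z) := hf.differentiableAt (isOpen_ball.mem_nhds (hφ.maps hz))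
  have h2 : DifferentiableAt ℂ φ z := hφ.diff.differentiableAt (isOpen_ball.mem_nhds hz)
  exact deriv_comp z h1 h2

theorem norm_phi (φ : ℂ → ℂ) (hφ : Sw φ) (z : ℂ) (hz : ‖z‖ < 1) : ‖φ z‖ ≤ ‖z‖ :=
  Complex.norm_le_norm_of_mapsTo_ball hφ.diff
    (fun _ hw => ball_subset_closedBall (hφ.maps hw)) hφ.zero hz

/-- the inequality on a circle without zeros of `f'` -/
theorem good (hBL : S_BL) (hZF : S_ZF) (f φ : ℂ → ℂ) (p s : ℝ)
    (hf : DifferentiableOn ℂ f (ball 0 1)) (hφ : Sw φ) (hp : 0 < p) (hp2 : p ≤ 2) (hs : 0 < s)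
    (hs2 : s ≤ 1 / 2) (hz : ∀ z : ℂ, ‖z‖ = s → deriv f z ≠ 0) :
    ∫ t in (0 : ℝ)..(2 * Real.pi), ‖deriv (fun z => f (φ z)) (cp s t)‖ ^ p ≤
      ∫ t in (0 : ℝ)..(2 * Real.pi), ‖deriv f (cp s t)‖ ^ p := by
  have hs1 : s < 1 := by linarith
  obtain ⟨R, H, hR, hH, hH0, hHe, hHl⟩ := hBL (deriv f) s hs hs1 (hf.deriv isOpen_ball) hz
  have h1 := hZF H φ p s R hφ hp hp2 hs hs2 hR hH hH0
  have hg : DifferentiableOn ℂ (fun z => f (φ z)) (ball 0 1) := hf.comp hφ.diff hφ.maps
  have hcg : Continuous (fun t : ℝ => deriv (fun z => f (φ z)) (cp s t)) :=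
    cont_circle _ 1 (hg.deriv isOpen_ball).continuousOn s hs.le hs1
  have hcphi : Continuous (fun t : ℝ => φ (cp s t)) :=
    cont_circle _ 1 hφ.diff.continuousOn s hs.le hs1
  have hcphi' : Continuous (fun t : ℝ => deriv φ (cp s t)) :=
    cont_circle _ 1 (hφ.diff.deriv isOpen_ball).continuousOn s hs.le hs1
  have hphi : ∀ t : ℝ, ‖φ (cp s t)‖ ≤ s := by
    intro t
    have h2 := norm_phi φ hφ (cp s t) (by rw [norm_cp _ _ hs.le]; exact hs1)
    rwa [norm_cp _ _ hs.le] at h2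
  have hcH : Continuous (fun t : ℝ => H (φ (cp s t))) := by
    apply hH.continuousOn.comp_continuous hcphi
    intro t
    rw [mem_ball_zero_iff]
    exact lt_of_le_of_lt (hphi t) hR
  calc ∫ t in (0 : ℝ)..(2 * Real.pi), ‖deriv (fun z => f (φ z)) (cp s t)‖ ^ p
      ≤ ∫ t in (0 : ℝ)..(2 * Real.pi), ‖H (φ (cp s t)) * deriv φ (cp s t)‖ ^ p := by
        apply intervalIntegral.integral_mono_on (by positivity)
        · exact (hcg.norm.rpow_const (fun _ => Or.inr hp.le)).intervalIntegrable _ _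
        · exact ((hcH.mul hcphi').norm.rpow_const (fun _ => Or.inr hp.le)).intervalIntegrable _ _
        · intro t _
          apply Real.rpow_le_rpow (norm_nonneg _) _ hp.le
          have h3 : cp s t ∈ ball (0 : ℂ) 1 := by
            rw [mem_ball_zero_iff, norm_cp _ _ hs.le]
            exact hs1
          rw [deriv_eq f φ hf hφ _ h3, norm_mul, norm_mul]
          exact mul_le_mul_of_nonneg_right (hHl _ (hphi t)) (norm_nonneg _)
    _ ≤ ∫ t in (0 : ℝ)..(2 * Real.pi), ‖H (cp s t)‖ ^ p := h1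
    _ = ∫ t in (0 : ℝ)..(2 * Real.pi), ‖deriv f (cp s t)‖ ^ p := by
        congr 1
        funext t
        rw [hHe _ (norm_cp _ _ hs.le)]

/-- `F` not identically zero: no zeros on the circles of radius `s < r` near `r` -/
theorem no_zeros (F : ℂ → ℂ) (hF : DifferentiableOn ℂ F (ball 0 1)) (r : ℝ) (hr1 : r < 1)
    (hne : ¬ EqOn F 0 (ball 0 1)) :
    ∀ᶠ s in 𝓝[<] r, ∀ z : ℂ, ‖z‖ = s → F z ≠ 0 := by
  have hA : AnalyticOnNhd ℂ F (ball 0 1) := hF.analyticOnNhd isOpen_ball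
  have hfin : ({z ∈ closedBall (0 : ℂ) r | F z = 0}).Finite := by
    by_contra hinf
    obtain ⟨x, hx, hacc⟩ := Set.Infinite.exists_accPt_of_subset_isCompact hinf
      (isCompact_closedBall (0 : ℂ) r) (sep_subset _ _)
    rw [accPt_iff_frequently_nhdsNE] at hacc
    apply hne
    apply hA.eqOn_zero_of_preconnected_of_frequently_eq_zero
      (convex_ball (0 : ℂ) 1).isPreconnected (closedBall_subset_ball hr1 hx)
    exact hacc.mono fun y hy => hy.2
  have hfin2 : ((fun z : ℂ => ‖z‖) '' {z ∈ closedBall (0 : ℂ) r | F z = 0} \ {r}).Finite :=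
    (hfin.image _).subset diff_subset
  have h1 : ((fun z : ℂ => ‖z‖) '' {z ∈ closedBall (0 : ℂ) r | F z = 0} \ {r})ᶜ ∈ 𝓝 r := by
    apply hfin2.isClosed.isOpen_compl.mem_nhds
    intro h
    exact h.2 rfl
  filter_upwards [nhdsWithin_le_nhds h1, self_mem_nhdsWithin] with s hs hsr z hz h0
  apply hs
  refine ⟨⟨z, ⟨?_, h0⟩, hz⟩, ?_⟩
  · rw [mem_closedBall_zero_iff, hz]
    exact (mem_Iio.1 hsr).le
  · exact (mem_Iio.1 hsr).ne

theorem mn (hBL : S_BL) (hZF : S_ZF) : S_MN := by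
  intro f φ p r hf hφ hp hp2 hr hr2
  have hr1 : r < 1 := by linarith
  have hg : DifferentiableOn ℂ (fun z => f (φ z)) (ball 0 1) := hf.comp hφ.diff hφ.maps
  by_cases hne : EqOn (deriv f) 0 (ball 0 1)
  · apply le_of_eq
    congr 1
    funext t
    have h3 : cp r t ∈ ball (0 : ℂ) 1 := by
      rw [mem_ball_zero_iff, norm_cp _ _ hr.le]
      exact hr1
    rw [deriv_eq f φ hf hφ _ h3, hne h3, hne (hφ.maps h3)]
    simp
  · have h1 := no_zeros (deriv f) (hf.deriv isOpen_ball) r hr1 hne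
    have hc1 := cont_mean (deriv (fun z => f (φ z))) (hg.deriv isOpen_ball).continuousOn p hp
    have hc2 := cont_mean (deriv f) (hf.deriv isOpen_ball).continuousOn p hp
    have ht1 := (hc1.tendsto r).mono_left (nhdsWithin_le_nhds (s := Iio r))
    have ht2 := (hc2.tendsto r).mono_left (nhdsWithin_le_nhds (s := Iio r))
    simp only [cl_eq r hr.le hr2] at ht1 ht2
    refine le_of_tendsto_of_tendsto ht1 ht2 ?_
    have h2 : ∀ᶠ s in 𝓝[<] r, 0 < s := nhdsWithin_le_nhds (lt_mem_nhds hr)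
    filter_upwards [h1, h2, self_mem_nhdsWithin] with s hs hs0 hsr
    have hs2 : s ≤ 1 / 2 := (mem_Iio.1 hsr).le.trans hr2
    rw [cl_eq s hs0.le hs2]
    exact good hBL hZF f φ p s hf hφ hp hp2 hs0 hs2 hs

end Pool.Agent.Q223.IM
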